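import Mathlib
import Pool.Agent.N242.NT.Stm

set_option autoImplicit false

open Metric Set Filter Topology

namespace Pool.Agent.N919.NT

open Pool.Agent.N242.NT

universe u

theorem t_SEP : S_SEP.{u} := by
  intro X _ _ B hB b hb b' hb' hne
  have hr : 0 < b.2 := hB.pos b hb
  have hr' : 0 < b'.2 := hB.pos b' hb'
  have hdis : Disjoint (ball b.1 b.2) (ball b'.1 b'.2) := by
    rw [Set.disjoint_left]
    intro x hx hx'
    rw [mem_ball, dist_eq_norm] at hx hx'
    exact hB.dis b hb b' hb' hne x hx hx'
  obtain ⟨f, β, h1, h2⟩ := geometric_hahn_banach_open_open (convex_ball b.1 b.2) isOpen_ball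
    (convex_ball b'.1 b'.2) isOpen_ball hdis
  refine ⟨f, β, ?_, ?_, h1 _ (mem_ball_self hr), h2 _ (mem_ball_self hr')⟩
  · intro x hx
    have hx' : x ∈ closure (ball b.1 b.2) := by
      rw [closure_ball b.1 hr.ne', mem_closedBall, dist_eq_norm]; exact hx
    have hcl : IsClosed {y : X | f y ≤ β} := isClosed_le f.continuous continuous_const
    exact (hcl.closure_subset_iff.2 (fun y hy => (h1 y hy).le)) hx'
  · intro x hx
    have hx' : x ∈ closure (ball b'.1 b'.2) := by
      rw [closure_ball b'.1 hr'.ne', mem_closedBall, dist_eq_norm]; exact hx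
    have hcl : IsClosed {y : X | β ≤ f y} := isClosed_le continuous_const f.continuous
    exact (hcl.closure_subset_iff.2 (fun y hy => (h2 y hy).le)) hx'

end Pool.Agent.N919.NT
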